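import Mathlib
import Pool.Agent.L7h19.IS.Stm
import Pool.Agent.L7h89.RP.StRank

/-!
# Project IS (owner helper19, problem MP_157626_nt): the rank bound for values (`S_RK`)
-/

set_option autoImplicit false
set_option linter.unusedSectionVars false

namespace Pool.Agent.L7h89.IS

open Finset Polynomial Pool.Agent.W262.RK Pool.Agent.W307.RT Pool.Agent.L7h19.RP
open Pool.Agent.L7h19.IS Pool.Agent.L7h89.RP

variable {J : Type} [Fintype J] [DecidableEq J]

lemma pT_prime {cB : J → Bool} {x : J → ℤ} {z y : ℕ} {r : Bool} {p : ℕ} (hp : p.Prime)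
    (h : p ∣ pT cB (S1 z y x) r) : ∃ j, cB j = r ∧ p ∣ S1 z y x j := by
  obtain ⟨j, hj, hpj⟩ := (hp.prime.dvd_finsetProd_iff _).1 h
  exact ⟨j, (mem_filter.1 hj).2, hpj⟩

lemma pT_sqf {cB : J → Bool} {x : J → ℤ} {z y : ℕ} (hG : Gd z x) (r : Bool) :
    Squarefree (pT cB (S1 z y x) r) := by
  have hcop : ∀ i j : J, i ≠ j → (S1 z y x i).Coprime (S1 z y x j) := by
    intro i j hij
    rw [Nat.coprime_iff_gcd_eq_one]
    by_contra hne
    obtain ⟨p, hp, hpd⟩ := Nat.exists_prime_and_dvd hne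
    exact hij (S1_uniq hG hp (hpd.trans (Nat.gcd_dvd_right _ _))
      (hpd.trans (Nat.gcd_dvd_left _ _)))
  unfold pT
  exact (Finset.squarefree_prod_of_pairwise_isCoprime
      (fun i _ j _ hij => Nat.coprime_iff_isRelPrime.1 (hcop i j hij)) fun i _ => S1_sqf i)

lemma pT_odd {cB : J → Bool} {x : J → ℤ} {z y : ℕ} (hz2 : 2 ≤ z) (r : Bool) :
    Odd (pT cB (S1 z y x) r) := by
  rw [← Nat.not_even_iff_odd, even_iff_two_dvd]
  intro h
  obtain ⟨j, -, hj⟩ := pT_prime Nat.prime_two h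
  have h1 := (mem_PS.1 ((S1_dvd_iff Nat.prime_two).1 hj).1).1.1
  omega

/-- the value with the factor `β` -/
lemma val_dvd {cB : J → Bool} {x : J → ℤ} {z y : ℕ} {r : Bool} {β : ℤ} (hG : Gd z x)
    (hβ : ∀ p : ℕ, p.Prime → z < p → ¬ (p : ℤ) ∣ β) {p : ℕ} (hp : p.Prime)
    (h : p ∣ pT cB (S1 z y x) r) :
    (p : ℤ) ∣ β * ∏ j ∈ univ.filter (fun j => cB j = r), x j ∧
    ¬ (p : ℤ) ^ 2 ∣ β * ∏ j ∈ univ.filter (fun j => cB j = r), x j := by
  obtain ⟨j, hj, hpj⟩ := pT_prime hp h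
  have h1 := (S1_dvd_iff hp).1 hpj
  have hz := (mem_PS.1 h1.1).1.1
  have hmem : j ∈ univ.filter (fun j => cB j = r) := mem_filter.2 ⟨mem_univ _, hj⟩
  have hpi : Prime (p : ℤ) := Nat.prime_iff_prime_int.1 hp
  have hs : β * ∏ j ∈ univ.filter (fun j => cB j = r), x j =
      x j * (β * ∏ l ∈ (univ.filter (fun j => cB j = r)).erase j, x l) := by
    rw [← mul_prod_erase _ _ hmem]
    ring
  rw [hs]
  have hnd : ¬ (p : ℤ) ∣ β * ∏ l ∈ (univ.filter (fun j => cB j = r)).erase j, x l := by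
    intro h
    rcases hpi.dvd_or_dvd h with h2 | h2
    · exact hβ p hp hz h2
    · obtain ⟨l, hl, hl2⟩ := (hpi.dvd_finsetProd_iff _).1 h2
      exact hG.2 p hp hz j l (ne_of_mem_erase hl).symm ⟨h1.2.1, hl2⟩
  refine ⟨h1.2.1.mul_right _, fun h => h1.2.2 ?_⟩
  exact (IsCoprime.pow_left ((Prime.coprime_iff_not_dvd hpi).2 hnd)).dvd_of_dvd_mul_right h

lemma val_nd {cB : J → Bool} {x : J → ℤ} {z y : ℕ} {r r' : Bool} (hrr : r ≠ r') {β : ℤ}
    (hG : Gd z x) (hβ : ∀ p : ℕ, p.Prime → z < p → ¬ (p : ℤ) ∣ β) {p : ℕ} (hp : p.Prime)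
    (h : p ∣ pT cB (S1 z y x) r) :
    ¬ (p : ℤ) ∣ β * ∏ j ∈ univ.filter (fun j => cB j = r'), x j := by
  obtain ⟨j, hj, hpj⟩ := pT_prime hp h
  have h1 := (S1_dvd_iff hp).1 hpj
  have hz := (mem_PS.1 h1.1).1.1
  have hpi : Prime (p : ℤ) := Nat.prime_iff_prime_int.1 hp
  intro h
  rcases hpi.dvd_or_dvd h with h2 | h2
  · exact hβ p hp hz h2
  · obtain ⟨l, hl, hl2⟩ := (hpi.dvd_finsetProd_iff _).1 h2
    refine hG.2 p hp hz j l ?_ ⟨h1.2.1, hl2⟩
    rintro rfl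
    exact hrr (hj.symm.trans (mem_filter.1 hl).2)

/-- the number of the primes outside `S1` -/
lemma bad1 {cB : J → Bool} {x : J → ℤ} {z y X K D : ℕ} {r : Bool} {β : ℤ} (hz2 : 2 ≤ z)
    (hG : Gd z x) (hβ : ∀ p : ℕ, p.Prime → z < p → ¬ (p : ℤ) ∣ β) (hy : 1 ≤ y)
    (hb : ∀ j, (x j).natAbs ≤ X ^ D) (hK : X < (y + 1) ^ K) :
    ((β * ∏ j ∈ univ.filter (fun j => cB j = r), x j).natAbs.primeFactors.filter
        (fun q => ¬ q ∣ pT cB (S1 z y x) r)).card ≤
      z + Fintype.card J * (D * K) + ∑ j, (S2 z y x j).primeFactors.card := by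
  have h0 := hG.1
  have hsub : ((β * ∏ j ∈ univ.filter (fun j => cB j = r), x j).natAbs.primeFactors.filter
        (fun q => ¬ q ∣ pT cB (S1 z y x) r)) ⊆
      ((Icc 1 z) ∪ univ.biUnion (fun j => (x j).natAbs.primeFactors.filter (y < ·))) ∪
        univ.biUnion (fun j => (S2 z y x j).primeFactors) := by
    intro q hq
    rw [mem_filter] at hq
    have hp := Nat.prime_of_mem_primeFactors hq.1
    have hdv := Nat.dvd_of_mem_primeFactors hq.1
    rw [mem_union, mem_union, mem_Icc]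
    rcases Nat.lt_or_ge z q with h | h
    swap
    · exact Or.inl (Or.inl ⟨hp.one_lt.le, h⟩)
    · have hqi : Prime (q : ℤ) := Nat.prime_iff_prime_int.1 hp
      have hdv2 : (q : ℤ) ∣ β * ∏ j ∈ univ.filter (fun j => cB j = r), x j :=
        Int.natCast_dvd.2 hdv
      rcases hqi.dvd_or_dvd hdv2 with h1 | h1
      · exact absurd h1 (hβ q hp h)
      · obtain ⟨l, hlm, hl⟩ := (hqi.dvd_finsetProd_iff _).1 h1
        rcases Nat.lt_or_ge y q with hyq | hyq
        · left; right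
          rw [mem_biUnion]
          refine ⟨l, mem_univ _, ?_⟩
          rw [mem_filter, Nat.mem_primeFactors]
          exact ⟨⟨hp, Int.natCast_dvd.1 hl, Int.natAbs_ne_zero.2 (h0 l)⟩, hyq⟩
        · right
          have hPS : q ∈ PS z y := mem_PS.2 ⟨⟨h, hyq⟩, hp⟩
          rw [mem_biUnion]
          refine ⟨l, mem_univ _, ?_⟩
          have hsq : (q : ℤ) ^ 2 ∣ x l := by
            by_contra hcon
            apply hq.2
            unfold pT
            refine dvd_trans ?_ (dvd_prod_of_mem _ hlm)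
            exact dvd_prod_of_mem _ (mem_filter.2 ⟨hPS, hl, hcon⟩)
          rw [Nat.mem_primeFactors]
          refine ⟨hp, dvd_prod_of_mem _ (mem_filter.2 ⟨hPS, hsq⟩), ?_⟩
          exact prod_ne_zero_iff.2 fun p hp => (mem_PS.1 (mem_filter.1 hp).1).2.ne_zero
  have hone : ∀ j, ((x j).natAbs.primeFactors.filter (y < ·)).card ≤ D * K := by
    intro j
    set S := (x j).natAbs.primeFactors.filter (y < ·) with hS
    have h1 : (y + 1) ^ S.card ≤ ∏ q ∈ S, q :=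
      Finset.pow_card_le_prod _ _ _ (fun q hq => by
        have := (mem_filter.1 hq).2
        omega)
    have h2 : ∏ q ∈ S, q ∣ (x j).natAbs :=
      (prod_dvd_prod_of_subset _ _ _ (filter_subset _ _)).trans (Nat.prod_primeFactors_dvd _)
    have h3 : ∏ q ∈ S, q ≤ (x j).natAbs :=
      Nat.le_of_dvd (Nat.pos_of_ne_zero (Int.natAbs_ne_zero.2 (h0 j))) h2
    have h4 : (y + 1) ^ S.card ≤ (y + 1) ^ (D * K) := by
      calc (y + 1) ^ S.card ≤ X ^ D := h1.trans (h3.trans (hb j))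
        _ ≤ ((y + 1) ^ K) ^ D := Nat.pow_le_pow_left hK.le D
        _ = (y + 1) ^ (D * K) := by rw [← pow_mul, mul_comm]
    exact (Nat.pow_le_pow_iff_right (by omega)).1 h4
  refine (card_le_card hsub).trans ((card_union_le _ _).trans (add_le_add
    ((card_union_le _ _).trans (add_le_add ?_ ?_)) card_biUnion_le))
  · simp
  · refine card_biUnion_le.trans ?_
    refine (sum_le_sum fun j _ => hone j).trans ?_
    rw [sum_const, card_univ, smul_eq_mul]

/-- `ω(b) = ω(m) + (the number of the other primes)` -/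
lemma om_eq {b : ℤ} (hb : b ≠ 0) {m : ℕ} (hm : m ≠ 0)
    (h : ∀ p : ℕ, p.Prime → p ∣ m → (p : ℤ) ∣ b) :
    om b = m.primeFactors.card + (b.natAbs.primeFactors.filter (fun p => ¬ p ∣ m)).card := by
  unfold om
  rw [← card_filter_add_card_filter_not (s := b.natAbs.primeFactors) (fun p => p ∣ m)]
  congr 2
  ext p
  rw [mem_filter, Nat.mem_primeFactors, Nat.mem_primeFactors]
  constructor
  · rintro ⟨⟨hp, -, -⟩, h2⟩
    exact ⟨hp, h2, hm⟩
  · rintro ⟨hp, h2, -⟩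
    exact ⟨⟨hp, Int.natCast_dvd.1 (h p hp h2), Int.natAbs_ne_zero.2 hb⟩, h2⟩

/-- **S_RK** -/
theorem rk_of (hdes : S_DES) : S_RK := by
  intro J _ _ cB a β γ x z y X k D hz2 hG hβ hγ hbg heq hb hX hy hk
  set b : ℤ := β * ∏ j ∈ univ.filter (fun j => cB j = true), x j with hbdef
  set c : ℤ := γ * ∏ j ∈ univ.filter (fun j => cB j = false), x j with hcdef
  set m := pT cB (S1 z y x) true with hm
  set n := pT cB (S1 z y x) false with hn
  have hb0 : b ≠ 0 := mul_ne_zero hβ (prod_ne_zero_iff.2 fun j _ => hG.1 j)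
  have hc0 : c ≠ 0 := mul_ne_zero hγ (prod_ne_zero_iff.2 fun j _ => hG.1 j)
  have hβ' : ∀ p : ℕ, p.Prime → z < p → ¬ (p : ℤ) ∣ β := fun p hp h => (hbg p hp h).1
  have hγ' : ∀ p : ℕ, p.Prime → z < p → ¬ (p : ℤ) ∣ γ := fun p hp h => (hbg p hp h).2
  have hmd : ∀ p : ℕ, p.Prime → p ∣ m → (p : ℤ) ∣ b ∧ ¬ (p : ℤ) ^ 2 ∣ b ∧ ¬ (p : ℤ) ∣ c :=
    fun p hp h => ⟨(val_dvd hG hβ' hp h).1, (val_dvd hG hβ' hp h).2,
      val_nd (by decide) hG hγ' hp h⟩
  have hnd : ∀ p : ℕ, p.Prime → p ∣ n → (p : ℤ) ∣ c ∧ ¬ (p : ℤ) ^ 2 ∣ c ∧ ¬ (p : ℤ) ∣ b :=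
    fun p hp h => ⟨(val_dvd hG hγ' hp h).1, (val_dvd hG hγ' hp h).2,
      val_nd (by decide) hG hβ' hp h⟩
  have hd := hdes a b m n hb0 (by rw [heq]; exact hc0) (pT_odd hz2 true) (pT_odd hz2 false)
    (pT_sqf hG true) (pT_sqf hG false) (fun p hp h => by rw [heq]; exact hmd p hp h)
    (fun p hp h => by rw [heq]; exact hnd p hp h)
  rw [heq] at hd
  have hA := bad1 (cB := cB) (r := true) (y := y) hz2 hG hβ' hy hb hk
  have hB := bad1 (cB := cB) (r := false) (y := y) hz2 hG hγ' hy hb hk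
  rw [← hbdef, ← hm] at hA
  rw [← hcdef, ← hn] at hB
  have hob := om_eq hb0 (pT_sqf (cB := cB) (y := y) hG true).ne_zero
    (fun p hp h => (hmd p hp h).1)
  have hoc := om_eq hc0 (pT_sqf (cB := cB) (y := y) hG false).ne_zero
    (fun p hp h => (hnd p hp h).1)
  rw [← hm] at hob
  rw [← hn] at hoc
  set A := (b.natAbs.primeFactors.filter (fun p => ¬ p ∣ m)).card with hAd
  set B := (c.natAbs.primeFactors.filter (fun p => ¬ p ∣ n)).card with hBd
  set R := Module.finrank ℤ (EI a b).toAffine.Point with hR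
  set S := ∑ j, (S2 z y x j).primeFactors.card with hS
  set W : ℝ := (N1 m n : ℝ) * (N1 n m : ℝ) with hW
  have hW0 : 0 ≤ W := by positivity
  have hd' : (2 : ℝ) ^ (R : ℝ) ≤ (2 : ℝ) ^ ((A : ℝ) + B + 2) * W := by
    have h1 : ((2 ^ R : ℕ) : ℝ) ≤ (((2 ^ (A + 1) * N1 m n) * (2 ^ (B + 1) * N1 n m) : ℕ) : ℝ) := by
      exact_mod_cast hd
    have h2 : (2 : ℝ) ^ ((A : ℝ) + B + 2) = 2 ^ (A + B + 2) := by
      rw [← Real.rpow_natCast]
      push_cast
      rfl
    rw [Real.rpow_natCast, h2, hW]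
    push_cast at h1
    refine h1.trans (le_of_eq ?_)
    rw [pow_add, pow_add, pow_add, pow_add]
    ring
  have hT : (z : ℝ) + Fintype.card J * (D * k) + S ≤
      (z : ℝ) + Fintype.card J * (D * k) + S := le_rfl
  have hA' : (A : ℝ) ≤ (z : ℝ) + Fintype.card J * (D * k) + S := by exact_mod_cast hA
  have hB' : (B : ℝ) ≤ (z : ℝ) + Fintype.card J * (D * k) + S := by exact_mod_cast hB
  set T : ℝ := (z : ℝ) + Fintype.card J * (D * k) + S with hTd
  have hA0 : (0 : ℝ) ≤ A := Nat.cast_nonneg _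
  have hB0 : (0 : ℝ) ≤ B := Nat.cast_nonneg _
  set q : ℝ := |((m.primeFactors.card : ℕ) : ℝ) - ((n.primeFactors.card : ℕ) : ℝ)| with hq
  set q' : ℝ := |((om b : ℕ) : ℝ) - ((om c : ℕ) : ℝ)| with hq'
  have hqq : q - T ≤ q' := by
    rw [hq, hq', hob, hoc]
    push_cast
    have h1 := abs_sub_abs_le_abs_sub
      (((m.primeFactors.card : ℕ) : ℝ) - ((n.primeFactors.card : ℕ) : ℝ)) ((B : ℝ) - A)
    have h2 : (((m.primeFactors.card : ℕ) : ℝ) - ((n.primeFactors.card : ℕ) : ℝ)) -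
        ((B : ℝ) - A) = ((m.primeFactors.card : ℕ) : ℝ) + A -
          (((n.primeFactors.card : ℕ) : ℝ) + B) := by ring
    rw [h2] at h1
    have h3 : |(B : ℝ) - A| ≤ T := abs_le.2 ⟨by linarith, by linarith⟩
    linarith
  -- the squares
  have hGG : (GG m n) ^ 2 = W / (2 : ℝ) ^ q := by
    unfold GG
    rw [Real.sq_sqrt (by positivity)]
  have hGG0 : 0 ≤ GG m n := Real.sqrt_nonneg _
  have hfac : ((4 : ℝ) ^ (z + 2) * (4 ^ (D * Fintype.card J)) ^ k * 4 ^ S) ^ 2 =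
      (2 : ℝ) ^ (4 * T + 8) := by
    have h1 : ((4 : ℝ) ^ (z + 2) * (4 ^ (D * Fintype.card J)) ^ k * 4 ^ S) ^ 2 =
        (2 : ℝ) ^ (4 * (z + Fintype.card J * (D * k) + S) + 8) := by
      rw [show (4 : ℝ) = 2 ^ 2 from by norm_num, ← pow_mul, ← pow_mul, ← pow_mul, ← pow_mul,
        ← pow_add, ← pow_add, ← pow_mul]
      congr 1
      ring
    rw [h1, ← Real.rpow_natCast, hTd]
    congr 1
    push_cast
    ring
  have hmain : ((2 : ℝ) ^ (((R : ℝ) - q') / 2)) ^ 2 ≤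
      ((4 : ℝ) ^ (z + 2) * (4 ^ (D * Fintype.card J)) ^ k * 4 ^ S * GG m n) ^ 2 := by
    rw [mul_pow _ (GG m n), hfac, hGG, ← Real.rpow_natCast, ← Real.rpow_mul (by norm_num)]
    have h1 : ((R : ℝ) - q') / 2 * ((2 : ℕ) : ℝ) = R + (-q') := by push_cast; ring
    rw [h1, Real.rpow_add (by norm_num), mul_div_assoc']
    rw [le_div_iff₀ (by positivity)]
    calc (2 : ℝ) ^ (R : ℝ) * 2 ^ (-q') * 2 ^ q = (2 : ℝ) ^ (R : ℝ) * 2 ^ (q - q') := by
          rw [mul_assoc, ← Real.rpow_add (by norm_num)]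
          congr 2
          ring
      _ ≤ ((2 : ℝ) ^ ((A : ℝ) + B + 2) * W) * 2 ^ T := by
          refine mul_le_mul hd' ?_ (by positivity) (by positivity)
          exact Real.rpow_le_rpow_of_exponent_le (by norm_num) (by linarith)
      _ = (2 : ℝ) ^ ((A : ℝ) + B + 2 + T) * W := by
          rw [Real.rpow_add (by norm_num) _ T]
          ring
      _ ≤ (2 : ℝ) ^ (4 * T + 8) * W := by
          refine mul_le_mul_of_nonneg_right ?_ hW0
          exact Real.rpow_le_rpow_of_exponent_le (by norm_num) (by linarith)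
  exact (abs_le_of_sq_le_sq' hmain (by positivity)).2

end Pool.Agent.L7h89.IS
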